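import Pool.Agent.H51.TA.Form
import Pool.Agent.H51.TA.Rel

set_option autoImplicit false

/-!
# Commutation of distant Temperley–Lieb generators (helper33, job FL1)
-/

namespace Pool.Agent.H63.Four

open Pool.Agent.H51.TA

section core

variable {t : ℤ → ℤ} {I J : ℤ → Prop} [DecidablePred I] [DecidablePred J]

/-- one half of the commutation -/
theorem core_comm_half (S : ℤ → ℤ → Prop) (inv : ∀ x, t (t x) = x)
    (hJS : ∀ a b, J a → J b → S a b) (hS1 : ∀ a b, S a b → S (a + 1) (b + 1))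
    (hS2 : ∀ a b, S a b → S (a - 1) (b - 1))
    (hSt : ∀ a b, S a b → S (t a) (t b)) (hSI : ∀ a b, S a b → (I a ↔ I b))
    (hII : ∀ k, I k → ¬ I (k + 1))
    (hIJ0 : ∀ k, I k → ¬ J k) (hIJ1 : ∀ k, I k → ¬ J (k + 1)) (hJI1 : ∀ k, J k → ¬ I (k + 1))
    (x : ℤ) (x1 : ¬ I x) (x2 : ¬ I (x - 1)) (x3 : ¬ J x) (x4 : ¬ J (x - 1))
    (hx : J (t x) ∨ J (t x - 1)) :
    coreT (coreT t J) I x = coreT (coreT t I) J x := by
  by_cases h1 : J (t x)
  · obtain ⟨k, hk⟩ : ∃ k, k = t x := ⟨_, rfl⟩
    obtain ⟨w, hw⟩ : ∃ w, w = t (k + 1) := ⟨_, rfl⟩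
    rw [← hk] at h1
    have tk : t k = x := by rw [hk, inv]
    have k1 : ¬ I k := fun h => hIJ0 k h h1
    have k2 : ¬ I (k - 1) := fun h => hIJ1 _ h (by rwa [sub_add_cancel])
    have k3 : ¬ I (k + 1) := hJI1 k h1
    have k4 : ¬ I (k + 1 - 1) := by rwa [add_sub_cancel_right]
    have F1 : coreT t J x = w := by simp [coreT, x3, x4, ← hk, h1, ← hw]
    have E1 : coreT t I x = k := by simp [coreT, x1, x2, ← hk, k1, k2]
    have L1 : coreT (coreT t J) I x = if I w then coreT t J (w + 1) else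
        if I (w - 1) then coreT t J (w - 1) else w := by
      rw [coreT, if_neg x1, if_neg x2, F1]
    have R1 : coreT (coreT t I) J x = coreT t I (k + 1) := by
      rw [coreT, if_neg x3, if_neg x4, E1, if_pos h1]
    have R2 : coreT t I (k + 1) = if I w then t (w + 1) else if I (w - 1) then t (w - 1) else w := by
      rw [coreT, if_neg k3, if_neg k4, ← hw]
    rw [L1, R1, R2]
    by_cases c1 : I w
    · rw [if_pos c1, if_pos c1]
      have d1 : ¬ J (w + 1) := hIJ1 w c1
      have d2 : ¬ J (w + 1 - 1) := by rw [add_sub_cancel_right]; exact hIJ0 w c1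
      have d3 : ¬ J (t (w + 1)) := by
        intro h
        have s1 := hSt _ _ (hJS _ _ h1 h)
        rw [tk, inv] at s1
        have s2 := hS2 _ _ s1
        rw [add_sub_cancel_right] at s2
        exact x2 ((hSI _ _ s2).2 c1)
      have d4 : ¬ J (t (w + 1) - 1) := by
        intro h
        have s1 := hSt _ _ (hS1 _ _ (hJS _ _ h1 h))
        rw [sub_add_cancel, inv, ← hw] at s1
        exact hII w c1 ((hSI _ _ s1).1 c1)
      rw [coreT, if_neg d1, if_neg d2, if_neg d3, if_neg d4]
    · rw [if_neg c1, if_neg c1]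
      by_cases c2 : I (w - 1)
      · rw [if_pos c2, if_pos c2]
        have d1 : ¬ J (w - 1) := hIJ0 _ c2
        have d2 : ¬ J (w - 1 - 1) := fun h => by
          have := hJI1 _ h
          rw [sub_add_cancel] at this
          exact this c2
        have d3 : ¬ J (t (w - 1)) := by
          intro h
          have s1 := hSt _ _ (hJS _ _ h1 h)
          rw [tk, inv] at s1
          exact x1 ((hSI _ _ s1).2 c2)
        have d4 : ¬ J (t (w - 1) - 1) := by
          intro h
          have s1 := hSt _ _ (hS1 _ _ (hJS _ _ h1 h))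
          rw [sub_add_cancel, inv, ← hw] at s1
          exact c1 ((hSI _ _ s1).2 c2)
        rw [coreT, if_neg d1, if_neg d2, if_neg d3, if_neg d4]
      · rw [if_neg c2, if_neg c2]
  · have h2 := hx.resolve_left h1
    obtain ⟨k, hk⟩ : ∃ k, k = t x - 1 := ⟨_, rfl⟩
    have hk' : t x = k + 1 := by omega
    obtain ⟨w, hw⟩ : ∃ w, w = t k := ⟨_, rfl⟩
    rw [← hk] at h2
    rw [hk'] at h1
    have tk : t (k + 1) = x := by rw [← hk', inv]
    have k1 : ¬ I k := fun h => hIJ0 k h h2
    have k2 : ¬ I (k - 1) := fun h => hIJ1 _ h (by rwa [sub_add_cancel])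
    have k3 : ¬ I (k + 1) := hJI1 k h2
    have k4 : ¬ I (k + 1 - 1) := by rwa [add_sub_cancel_right]
    have h3 : J (k + 1 - 1) := by rwa [add_sub_cancel_right]
    have F1 : coreT t J x = w := by
      rw [coreT, if_neg x3, if_neg x4, hk', if_neg h1, if_pos h3, add_sub_cancel_right, hw]
    have E1 : coreT t I x = k + 1 := by
      rw [coreT, if_neg x1, if_neg x2, hk', if_neg k3, if_neg k4]
    have L1 : coreT (coreT t J) I x = if I w then coreT t J (w + 1) else
        if I (w - 1) then coreT t J (w - 1) else w := by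
      rw [coreT, if_neg x1, if_neg x2, F1]
    have R1 : coreT (coreT t I) J x = coreT t I k := by
      rw [coreT, if_neg x3, if_neg x4, E1, if_neg h1, if_pos h3, add_sub_cancel_right]
    have R2 : coreT t I k = if I w then t (w + 1) else if I (w - 1) then t (w - 1) else w := by
      rw [coreT, if_neg k1, if_neg k2, ← hw]
    rw [L1, R1, R2]
    by_cases c1 : I w
    · rw [if_pos c1, if_pos c1]
      have d1 : ¬ J (w + 1) := hIJ1 w c1
      have d2 : ¬ J (w + 1 - 1) := by rw [add_sub_cancel_right]; exact hIJ0 w c1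
      have d3 : ¬ J (t (w + 1)) := by
        intro h
        have s1 := hSt _ _ (hJS _ _ h2 h)
        rw [← hw, inv] at s1
        exact hII w c1 ((hSI _ _ s1).1 c1)
      have d4 : ¬ J (t (w + 1) - 1) := by
        intro h
        have s1 := hSt _ _ (hS1 _ _ (hJS _ _ h2 h))
        rw [sub_add_cancel, inv, tk] at s1
        have s2 := hS2 _ _ s1
        rw [add_sub_cancel_right] at s2
        exact x2 ((hSI _ _ s2).2 c1)
      rw [coreT, if_neg d1, if_neg d2, if_neg d3, if_neg d4]
    · rw [if_neg c1, if_neg c1]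
      by_cases c2 : I (w - 1)
      · rw [if_pos c2, if_pos c2]
        have d1 : ¬ J (w - 1) := hIJ0 _ c2
        have d2 : ¬ J (w - 1 - 1) := fun h => by
          have := hJI1 _ h
          rw [sub_add_cancel] at this
          exact this c2
        have d3 : ¬ J (t (w - 1)) := by
          intro h
          have s1 := hSt _ _ (hJS _ _ h2 h)
          rw [← hw, inv] at s1
          exact c1 ((hSI _ _ s1).2 c2)
        have d4 : ¬ J (t (w - 1) - 1) := by
          intro h
          have s1 := hSt _ _ (hS1 _ _ (hJS _ _ h2 h))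
          rw [sub_add_cancel, inv, tk] at s1
          exact x1 ((hSI _ _ s1).2 c2)
        rw [coreT, if_neg d1, if_neg d2, if_neg d3, if_neg d4]
      · rw [if_neg c2, if_neg c2]

/-- the positions of `I` -/
theorem core_comm_left (hIJ0 : ∀ k, I k → ¬ J k)
    (hIJ1 : ∀ k, I k → ¬ J (k + 1)) (hJI1 : ∀ k, J k → ¬ I (k + 1)) (x : ℤ)
    (x1 : I x ∨ I (x - 1)) :
    coreT (coreT t J) I x = coreT (coreT t I) J x := by
  by_cases h1 : I x
  · have x3 : ¬ J x := hIJ0 x h1
    have x4 : ¬ J (x - 1) := fun h => by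
      have := hJI1 _ h
      rw [sub_add_cancel] at this
      exact this h1
    have x5 : ¬ J (x + 1) := hIJ1 _ h1
    have x6 : ¬ J (x + 1 - 1) := by rwa [add_sub_cancel_right]
    have E1 : coreT t I x = x + 1 := by rw [coreT, if_pos h1]
    rw [coreT, if_pos h1, coreT, if_neg x3, if_neg x4, E1, if_neg x5, if_neg x6]
  · have h2 := x1.resolve_left h1
    have x3 : ¬ J x := fun h => by
      have := hIJ1 _ h2
      rw [sub_add_cancel] at this
      exact this h
    have x4 : ¬ J (x - 1) := hIJ0 _ h2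
    have x6 : ¬ J (x - 1 - 1) := fun h => by
      have := hJI1 _ h
      rw [sub_add_cancel] at this
      exact this h2
    have E1 : coreT t I x = x - 1 := by rw [coreT, if_neg h1, if_pos h2]
    rw [coreT, if_neg h1, if_pos h2, coreT, if_neg x3, if_neg x4, E1, if_neg x4, if_neg x6]

end core

theorem e_comm {P : ℕ} (i j : ℤ) (π : Pat P) (h0 : ¬ (P : ℤ) ∣ i - j) (h1 : ¬ (P : ℤ) ∣ j - i - 1)
    (h2 : ¬ (P : ℤ) ∣ i - j - 1) : e i (e j π) = e j (e i π) := by
  by_cases hP : 2 ≤ P
  swap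
  · have hz : ∀ (i : ℤ) (π : Pat P), e i π = π := fun i π => by rw [e, dif_neg hP]
    rw [hz, hz, hz, hz]
  have hIJ0 : ∀ k, Res P i k → ¬ Res P j k := by
    intro k hi hj
    rw [res_iff] at hi hj
    apply h0
    have := dvd_sub hj hi
    rwa [show k - j - (k - i) = i - j by ring] at this
  have hIJ1 : ∀ k, Res P i k → ¬ Res P j (k + 1) := by
    intro k hi hj
    rw [res_iff] at hi hj
    apply h1
    have := dvd_sub hi hj
    rwa [show k - i - (k + 1 - j) = j - i - 1 by ring] at this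
  have hJI1 : ∀ k, Res P j k → ¬ Res P i (k + 1) := by
    intro k hj hi
    rw [res_iff] at hi hj
    apply h2
    have := dvd_sub hj hi
    rwa [show k - j - (k + 1 - i) = i - j - 1 by ring] at this
  ext x
  rw [e_t hP, e_t hP, e_t hP, e_t hP, eFun_eq_core, eFun_eq_core, eFun_eq_core, eFun_eq_core]
  have hS1 : ∀ a b : ℤ, (P : ℤ) ∣ a - b → (P : ℤ) ∣ (a + 1) - (b + 1) := fun a b h => by
    rwa [show a + 1 - (b + 1) = a - b by ring]
  have hS2 : ∀ a b : ℤ, (P : ℤ) ∣ a - b → (P : ℤ) ∣ (a - 1) - (b - 1) := fun a b h => by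
    rwa [show a - 1 - (b - 1) = a - b by ring]
  have hSt : ∀ a b : ℤ, (P : ℤ) ∣ a - b → (P : ℤ) ∣ π.t a - π.t b := fun a b h => by
    obtain ⟨m, hm⟩ := h
    rw [show a = b + P * m by linarith, per_mul]
    exact ⟨m, by ring⟩
  have hSI : ∀ (i : ℤ) (a b : ℤ), (P : ℤ) ∣ a - b → (Res P i a ↔ Res P i b) := fun i a b h => by
    rw [res_iff, res_iff]
    constructor
    · intro h'
      have := dvd_sub h' h
      rwa [show a - i - (a - b) = b - i by ring] at this
    · intro h'
      have := dvd_add h' h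
      rwa [show b - i + (a - b) = a - i by ring] at this
  have hJS : ∀ (j : ℤ) (a b : ℤ), Res P j a → Res P j b → (P : ℤ) ∣ a - b := fun j a b ha hb => by
    rw [res_iff] at ha hb
    have := dvd_sub ha hb
    rwa [show a - j - (b - j) = a - b by ring] at this
  by_cases a1 : Res P i x ∨ Res P i (x - 1)
  · exact core_comm_left hIJ0 hIJ1 hJI1 x a1
  by_cases a2 : Res P j x ∨ Res P j (x - 1)
  · exact (core_comm_left (fun k h h' => hIJ0 k h' h) hJI1 hIJ1 x a2).symm
  push Not at a1 a2
  by_cases a3 : Res P j (π.t x) ∨ Res P j (π.t x - 1)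
  · exact core_comm_half (fun a b => (P : ℤ) ∣ a - b) π.inv (hJS j) hS1 hS2 hSt (hSI i)
      (res_hI hP i) hIJ0 hIJ1 hJI1 x a1.1 a1.2 a2.1 a2.2 a3
  by_cases a4 : Res P i (π.t x) ∨ Res P i (π.t x - 1)
  · exact (core_comm_half (fun a b => (P : ℤ) ∣ a - b) π.inv (hJS i) hS1 hS2 hSt (hSI j)
      (res_hI hP j) (fun k h h' => hIJ0 k h' h) hJI1 hIJ1 x a2.1 a2.2 a1.1 a1.2 a4).symm
  push Not at a3 a4
  have E1 : coreT π.t (Res P i) x = π.t x := by
    rw [coreT, if_neg a1.1, if_neg a1.2, if_neg a4.1, if_neg a4.2]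
  have E2 : coreT π.t (Res P j) x = π.t x := by
    rw [coreT, if_neg a2.1, if_neg a2.2, if_neg a3.1, if_neg a3.2]
  rw [coreT, if_neg a1.1, if_neg a1.2, E2, if_neg a4.1, if_neg a4.2, coreT, if_neg a2.1,
    if_neg a2.2, E1, if_neg a3.1, if_neg a3.2]

end Pool.Agent.H63.Four
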