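import Pool.Agent.H63.Four.Defs
import Pool.Agent.H33.Four.Comm

set_option autoImplicit false

/-!
# Algebra of the four-leg event (helper33, job FL1)
-/

namespace Pool.Agent.H63.Four

open Pool.Agent.H51.TA

namespace FL1

theorem nmod {P : ℕ} {d : ℤ} (h0 : d ≠ 0) (h1 : |d| < P) : ¬ d % (P : ℤ) = 0 := fun h =>
  h0 (Int.eq_zero_of_abs_lt_dvd (Int.dvd_of_emod_eq_zero h) h1)

theorem mc_rotInv {P : ℕ} (X Y : Pat P) (c : ℤ) :
    mc X.rotInv.t Y.rotInv.t c = mc X.t Y.t (c - 1) := by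
  have := mc_rot X.rotInv Y.rotInv (c - 1)
  rw [rot_rotInv, rot_rotInv, sub_add_cancel] at this
  exact this.symm

theorem e_rotInv {P : ℕ} (i : ℤ) (X : Pat P) : e (i + 1) X.rotInv = (e i X).rotInv := by
  have := rot_e i X.rotInv
  rw [rot_rotInv] at this
  rw [← this, rotInv_rot]

variable {L : ℕ} [NeZero L]

omit [NeZero L] in
theorem T (hL : 2 ≤ L) (X Y : Pat (L + 2)) (i c : ℤ) (h0 : i + 1 - c ≠ 0)
    (h1 : -4 < i + 1 - c ∧ i + 1 - c < 4) : mc (e i X).t Y.t c = mc X.t (e i Y).t c := by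
  refine mc_e (by omega) X Y i c (nmod h0 ?_)
  rw [abs_lt]
  push_cast
  omega

theorem ins_two (a b : Pat L) : mc (ins a).t (ins b).t 2 = mc a.t b.t 0 := by
  rw [mc_ins a b 2 le_rfl (by omega)]
  norm_num

theorem ins_three (hL : 2 ≤ L) (a b : Pat L) : mc (ins a).t (ins b).t 3 = mc a.t b.t 1 := by
  rw [mc_ins a b 3 (by norm_num) (by omega)]
  norm_num

theorem ins_nil (a b : Pat L) : mc (ins a).t (ins b).t 0 = mc a.t b.t 0 := by
  rw [← mc_add (ins a) (ins b) 0, mc_ins a b _ (by push_cast; omega) (by push_cast; omega)]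
  rw [show (0 : ℤ) + ((L + 2 : ℕ) : ℤ) - 2 = 0 + (L : ℤ) by push_cast; ring, mc_add]

theorem ins_neg (hL : 2 ≤ L) (a b : Pat L) : mc (ins a).t (ins b).t (-1) = mc a.t b.t (-1) := by
  rw [← mc_add (ins a) (ins b) (-1), mc_ins a b _ (by push_cast; omega) (by push_cast; omega)]
  rw [show (-1 : ℤ) + ((L + 2 : ℕ) : ℤ) - 2 = -1 + (L : ℤ) by push_cast; ring, mc_add]

/-- both states have the small arc at the positions `0, 1` -/
theorem two_eq_zero (hL : 2 ≤ L) (X Y : Pat (L + 2)) :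
    mc (e 0 X).t (e 0 Y).t 2 = mc (e 0 X).t (e 0 Y).t 0 := by
  obtain ⟨a, ha⟩ := exists_ins hL X
  obtain ⟨b, hb⟩ := exists_ins hL Y
  rw [ha, hb, ins_two, ins_nil]

omit [NeZero L] in
theorem e_one_eq (X : Pat (L + 2)) : e 1 X = (e 0 X.rot).rotInv := by
  rw [← e_rotInv, rotInv_rot]
  rfl

theorem three_eq_one (hL : 2 ≤ L) (X Y : Pat (L + 2)) :
    mc (e 1 X).t (e 1 Y).t 3 = mc (e 1 X).t (e 1 Y).t 1 := by
  rw [e_one_eq, e_one_eq, mc_rotInv, mc_rotInv]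
  exact two_eq_zero hL _ _

theorem e101 (hL : 2 ≤ L) (π : Pat (L + 2)) : e 1 (e 0 (e 1 π)) = e 1 π := by
  obtain ⟨α, hα⟩ := exists_ins hL π.rot
  have h1 : e 1 π = e 1 (ins α.rotInv) := by
    rw [e_one_eq, hα, e_one_ins hL, rot_rotInv]
  rw [h1, e_zero_one_ins hL]

/-- the small arc at the positions `2, 3` -/
def ins23 (γ : Pat L) : Pat (L + 2) := (ins γ.rot.rot).rotInv.rotInv

theorem e_two_one (hL : 2 ≤ L) (β : Pat L) : e 2 (e 1 (ins β)) = ins23 β := by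
  rw [e_one_ins hL β, show (2 : ℤ) = 1 + 1 by norm_num, e_rotInv, e_one_ins hL]
  rfl

theorem e_two_ins23 (hL : 2 ≤ L) (γ : Pat L) : e 2 (ins23 γ) = ins23 γ := by
  rw [← e_two_one hL, e_e]

theorem e_one_ins23 (hL : 2 ≤ L) (γ : Pat L) : e 1 (ins23 γ) = e 1 (ins γ) := by
  have h1 : e 1 (ins23 γ) = (e 0 (ins γ.rot.rot).rotInv).rotInv := by
    rw [← e_rotInv]; rfl
  rw [h1, ← e_one_ins hL, e_zero_one_ins hL, e_one_ins hL]

theorem e_zero_ins23 (hL : 2 ≤ L) (γ : Pat L) : e 0 (ins23 γ) = ins23 (e 0 γ) := by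
  have h1 : e 0 (ins23 γ) = (e (-2) (ins γ.rot.rot)).rotInv.rotInv := by
    rw [← e_rotInv, ← e_rotInv]; rfl
  have h2 : e (-2) (ins γ.rot.rot) = ins (e (-2) γ.rot.rot) := by
    have h3 := e_ins γ.rot.rot (L - 2) (by omega)
    have h4 := e_add (-2) (ins γ.rot.rot)
    have h5 := e_add (-2) γ.rot.rot
    rw [← h4, ← h5]
    rw [show (-2 : ℤ) + ((L + 2 : ℕ) : ℤ) = ((L - 2 : ℕ) : ℤ) + 2 by push_cast [hL]; ring,
      show (-2 : ℤ) + (L : ℤ) = ((L - 2 : ℕ) : ℤ) by push_cast [hL]; ring]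
    exact h3
  have h3 : (e 0 γ).rot.rot = e (-2) γ.rot.rot := by
    rw [show (0 : ℤ) = -1 + 1 by norm_num, rot_e, show (-1 : ℤ) = -2 + 1 by norm_num, rot_e]
  rw [h1, h2, ← h3]
  rfl

theorem e_two_ins (hL : 2 ≤ L) (β : Pat L) : e 2 (ins β) = ins (e 0 β) := by
  have := e_ins β 0 (by omega)
  simpa using this

omit [NeZero L] in
theorem comm02 (hL : 2 ≤ L) (X : Pat (L + 2)) : e 0 (e 2 X) = e 2 (e 0 X) := by
  have key : ∀ d : ℤ, d ≠ 0 → -4 < d → d < 4 → ¬ (((L + 2 : ℕ) : ℤ)) ∣ d := by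
    intro d h0 h1 h2 h3
    refine h0 (Int.eq_zero_of_abs_lt_dvd h3 ?_)
    rw [abs_lt]
    push_cast
    omega
  exact e_comm 0 2 X (key _ (by norm_num) (by norm_num) (by norm_num))
    (key _ (by norm_num) (by norm_num) (by norm_num))
    (key _ (by norm_num) (by norm_num) (by norm_num))

theorem ins_eq_ins23 (hL : 2 ≤ L) (β : Pat L) : ins (e 0 β) = ins23 (e 0 β) := by
  rw [← e_zero_ins23 hL, ← e_two_one hL, comm02 hL, e_zero_one_ins hL, e_two_ins hL]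

/-- gap `0`, small arcs at `1, 2` -/
theorem e1_zero (hL : 2 ≤ L) (b g : Pat L) :
    mc (e 1 (ins b)).t (e 1 (ins g)).t 0 = mc b.t g.t 0 := by
  rw [e_one_ins hL, e_one_ins hL, mc_rotInv, show (0 : ℤ) - 1 = -1 by norm_num, ins_neg hL, mc_rot]
  norm_num

theorem e1_one (hL : 2 ≤ L) (b g : Pat L) :
    mc (e 1 (ins b)).t (e 1 (ins g)).t 1 = mc b.t g.t 1 := by
  rw [e_one_ins hL, e_one_ins hL, mc_rotInv, show (1 : ℤ) - 1 = 0 by norm_num, ins_nil, mc_rot]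
  norm_num

theorem i23_two (b g : Pat L) : mc (ins23 b).t (ins23 g).t 2 = mc b.t g.t 2 := by
  unfold ins23
  rw [mc_rotInv, mc_rotInv, show (2 : ℤ) - 1 - 1 = 0 by norm_num, ins_nil, mc_rot, mc_rot]
  norm_num

theorem i23_one (hL : 2 ≤ L) (b g : Pat L) : mc (ins23 b).t (ins23 g).t 1 = mc b.t g.t 1 := by
  unfold ins23
  rw [mc_rotInv, mc_rotInv, show (1 : ℤ) - 1 - 1 = -1 by norm_num, ins_neg hL, mc_rot, mc_rot]
  norm_num

end FL1

open FL1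

theorem four_e_left {L : ℕ} (hL : 2 ≤ L) (π π' : Pat L) : ¬ FourLeg (e 0 π) π' := by
  have h1 : mc (e 0 π).t (e 0 π').t 0 = mc (e 0 π).t π'.t 0 := by
    rw [← mc_e hL (e 0 π) π' 0 0 (nmod (by norm_num) (by norm_num; omega)), e_e]
  unfold FourLeg NL
  rw [e_e, h1]
  tauto

theorem four_e_right {L : ℕ} (hL : 2 ≤ L) (π π' : Pat L) : ¬ FourLeg π (e 0 π') := by
  unfold FourLeg NL
  rw [e_e]
  tauto

theorem four_transfer {L : ℕ} (π π' : Pat L) (i : ℕ) (h2 : 2 ≤ i) (hi : i + 1 < L) :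
    FourLeg (e i π) π' ↔ FourLeg π (e i π') := by
  have key : ∀ d : ℤ, 0 < |d| → |d| < L → ¬ ((L : ℕ) : ℤ) ∣ d := by
    intro d h0 h1 h3
    exact (abs_pos.1 h0) (Int.eq_zero_of_abs_lt_dvd h3 h1)
  have hc : ∀ X : Pat L, e 0 (e i X) = e i (e 0 X) := by
    intro X
    refine e_comm 0 i X (key _ ?_ ?_) (key _ ?_ ?_) (key _ ?_ ?_)
    all_goals
      first
        | (rw [abs_of_nonneg (by omega)]; omega)
        | (rw [abs_of_nonpos (by omega)]; omega)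
  have hT : ∀ (X Y : Pat L) (c : ℤ), 0 ≤ c → c ≤ 2 → mc (e i X).t Y.t c = mc X.t (e i Y).t c := by
    intro X Y c h0 h1
    refine mc_e (by omega) X Y i c (nmod (by omega) ?_)
    rw [abs_of_nonneg (by omega)]
    omega
  unfold FourLeg NL
  rw [hT _ _ 1 (by norm_num) (by norm_num), hT _ _ 1 (by norm_num) (by norm_num), hc, hc,
    hT _ _ 1 (by norm_num) (by norm_num), hT _ _ 0 (by norm_num) (by norm_num),
    hT _ _ 0 (by norm_num) (by norm_num), hT _ _ 2 (by norm_num) (by norm_num)]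

theorem four_ins_kill {L : ℕ} [NeZero L] (hL : 2 ≤ L) (β : Pat L) (π' : Pat (L + 2)) :
    ¬ FourLeg (e 1 (ins β)) (e 1 π') := by
  have h0 : mc (e 1 (ins β)).t (e 0 (e 1 π')).t 0 = mc (e 1 (ins β)).t (e 1 π').t 0 := by
    rw [T hL _ _ 1 0 (by norm_num) (by norm_num), e101 hL, ← T hL _ _ 1 0 (by norm_num) (by norm_num)]
    rw [← T hL (e 1 (ins β)) π' 1 0 (by norm_num) (by norm_num), e_e]
  have h1 : mc (e 1 (ins β)).t (e 0 (e 1 π')).t 1 = mc (e 1 (ins β)).t (e 1 π').t 1 := by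
    rw [T hL _ _ 1 1 (by norm_num) (by norm_num), e101 hL, ← T hL _ _ 1 1 (by norm_num) (by norm_num)]
    rw [← T hL (e 1 (ins β)) π' 1 1 (by norm_num) (by norm_num), e_e]
  unfold FourLeg NL
  rw [h0, h1]
  tauto

theorem four_ins_transfer {L : ℕ} [NeZero L] (hL : 2 ≤ L) (β : Pat L) (π' : Pat (L + 2)) (i : ℕ)
    (h1 : 1 ≤ i) (hi : i + 1 < L) :
    FourLeg (e 1 (ins (e i β))) π' ↔ FourLeg (e 1 (ins β)) (e ((i : ℤ) + 2) π') := by
  have key : ∀ d : ℤ, 0 < |d| → |d| < L + 2 → ¬ ((L + 2 : ℕ) : ℤ) ∣ d := by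
    intro d h0 h1 h3
    exact (abs_pos.1 h0) (Int.eq_zero_of_abs_lt_dvd h3 (by push_cast; exact h1))
  have h2 := four_transfer (e 1 (ins β)) π' (i + 2) (by omega) (by omega)
  have h3 : e ((i + 2 : ℕ) : ℤ) (e 1 (ins β)) = e 1 (ins (e i β)) := by
    rw [← e_ins β i hi]
    push_cast
    refine e_comm _ 1 (ins β) (key _ ?_ ?_) (key _ ?_ ?_) (key _ ?_ ?_)
    all_goals
      first
        | (rw [abs_of_nonneg (by omega)]; omega)
        | (rw [abs_of_nonpos (by omega)]; omega)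
  rw [h3] at h2
  rw [h2]
  push_cast
  rfl

theorem four_rot {L : ℕ} [NeZero L] (hL : 2 ≤ L) (α : Pat L) (ρ : Pat (L + 2)) :
    FourLeg (ins α).rot ρ.rot ↔ FourLeg (e 1 (ins α)) ρ := by
  obtain ⟨X, hX⟩ : ∃ X, X = ins α := ⟨_, rfl⟩
  have hX0 : e 0 X = X := by rw [hX, e_zero_ins]
  have hX01 : e 0 (e 1 X) = X := by rw [hX, e_zero_one_ins hL]
  rw [← hX]
  have r0 : ∀ Z : Pat (L + 2), e 0 Z.rot = (e 1 Z).rot := fun Z => by
    rw [show (1 : ℤ) = 0 + 1 by norm_num, rot_e]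
  -- the three identities
  have i1 : mc X.t (e 1 ρ).t 2 = mc (e 1 X).t ρ.t 0 := by
    rw [T hL X ρ 1 0 (by norm_num) (by norm_num)]
    have a1 : mc X.t (e 1 ρ).t 2 = mc X.t (e 0 (e 1 ρ)).t 2 := by
      rw [← T hL X (e 1 ρ) 0 2 (by norm_num) (by norm_num), hX0]
    have a2 : mc X.t (e 1 ρ).t 0 = mc X.t (e 0 (e 1 ρ)).t 0 := by
      rw [← T hL X (e 1 ρ) 0 0 (by norm_num) (by norm_num), hX0]
    rw [a1, a2]
    have := two_eq_zero hL X (e 1 ρ)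
    rwa [hX0] at this
  have i2 : mc X.t ρ.t 2 = mc (e 1 X).t (e 0 ρ).t 0 := by
    rw [← T hL (e 1 X) ρ 0 0 (by norm_num) (by norm_num), hX01]
    have a1 : mc X.t ρ.t 2 = mc X.t (e 0 ρ).t 2 := by
      rw [← T hL X ρ 0 2 (by norm_num) (by norm_num), hX0]
    have a2 : mc X.t ρ.t 0 = mc X.t (e 0 ρ).t 0 := by
      rw [← T hL X ρ 0 0 (by norm_num) (by norm_num), hX0]
    rw [a1, a2]
    have := two_eq_zero hL X ρ
    rwa [hX0] at this
  have i3 : mc X.t ρ.t 3 = mc (e 1 X).t (e 0 ρ).t 1 := by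
    have a1 : mc X.t ρ.t 3 = mc (e 1 X).t (e 0 ρ).t 3 := by
      rw [← T hL (e 1 X) ρ 0 3 (by norm_num) (by norm_num), hX01]
    have a2 : mc (e 1 X).t (e 0 ρ).t 3 = mc (e 1 X).t (e 1 (e 0 ρ)).t 3 := by
      rw [← T hL (e 1 X) (e 0 ρ) 1 3 (by norm_num) (by norm_num), e_e]
    have a3 : mc (e 1 X).t (e 0 ρ).t 1 = mc (e 1 X).t (e 1 (e 0 ρ)).t 1 := by
      rw [← T hL (e 1 X) (e 0 ρ) 1 1 (by norm_num) (by norm_num), e_e]
    rw [a1, a2, a3]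
    exact three_eq_one hL X (e 0 ρ)
  unfold FourLeg NL
  rw [r0, r0, mc_rot, mc_rot, mc_rot, mc_rot, mc_rot, mc_rot, hX01]
  norm_num
  rw [i1, i2, i3, T hL X ρ 1 1 (by norm_num) (by norm_num)]
  tauto

theorem four_red_right {L : ℕ} [NeZero L] (hL : 2 ≤ L) (β γ : Pat L) :
    FourLeg (e 1 (ins β)) (ins γ.rot.rot).rotInv.rotInv ↔ FourLeg β γ := by
  change FourLeg (e 1 (ins β)) (ins23 γ) ↔ FourLeg β γ
  have g0 : ∀ γ : Pat L, mc (e 1 (ins β)).t (ins23 γ).t 0 = mc β.t γ.t 0 := fun γ => by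
    rw [← e1_zero hL, ← e_one_ins23 hL γ, ← T hL _ _ 1 0 (by norm_num) (by norm_num), e_e]
  have g1 : ∀ γ : Pat L, mc (e 1 (ins β)).t (ins23 γ).t 1 = mc β.t γ.t 1 := fun γ => by
    rw [← e1_one hL, ← e_one_ins23 hL γ, ← T hL _ _ 1 1 (by norm_num) (by norm_num), e_e]
  have g2 : mc (e 1 (ins β)).t (ins23 γ).t 2 = mc β.t γ.t 2 := by
    rw [← i23_two β γ, ← e_two_one hL β, T hL _ _ 2 2 (by norm_num) (by norm_num), e_two_ins23 hL]
  have g3 : mc (e 0 (e 1 (ins β))).t (ins23 γ).t 1 = mc (e 0 β).t γ.t 1 := by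
    rw [e_zero_one_ins hL, ← i23_one hL, ← ins_eq_ins23 hL, ← e_two_ins hL,
      T hL _ _ 2 1 (by norm_num) (by norm_num), e_two_ins23 hL]
  unfold FourLeg NL
  rw [e_zero_ins23 hL, g0, g0, g1, g1, g2, g3]

theorem four_red_left {L : ℕ} [NeZero L] (hL : 2 ≤ L) (δ γ : Pat L) :
    FourLeg (e 1 (ins δ.rot)) (ins γ).rot ↔ FourLeg δ γ := by
  have r0 : ∀ Z : Pat (L + 2), e 0 Z.rot = (e 1 Z).rot := fun Z => by
    rw [show (1 : ℤ) = 0 + 1 by norm_num, rot_e]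
  have r1 : ∀ Z : Pat (L + 2), e 1 Z.rot = (e 2 Z).rot := fun Z => by
    rw [show (2 : ℤ) = 1 + 1 by norm_num, rot_e]
  have rm : ∀ Z : Pat (L + 2), e (-1) Z.rot = (e 0 Z).rot := fun Z => by
    rw [show (0 : ℤ) = -1 + 1 by norm_num, rot_e]
  -- `X = (e 2 (e 1 (ins δ))).rot`
  have hδ : ∀ δ : Pat L, ins δ.rot = (e 1 (ins δ)).rot := fun δ => by
    rw [e_one_ins hL, rot_rotInv]
  have hX : e 1 (ins δ.rot) = (e 2 (e 1 (ins δ))).rot := by rw [hδ, r1]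
  have hYm : e (-1) (ins γ).rot = (ins γ).rot := by rw [rm, e_zero_ins]
  have hXm : e (-1) (e 1 (ins δ.rot)) = (ins (e 0 δ)).rot := by
    rw [hX, rm, comm02 hL, e_zero_one_ins hL, e_two_ins hL]
  have hY0 : e 0 (ins γ).rot = ins γ.rot := by rw [r0, hδ]
  have s1 : mc (e 1 (ins δ.rot)).t (ins γ).rot.t 1 = mc δ.t (e 0 γ).t 0 := by
    rw [← hYm, ← T hL _ _ (-1) 1 (by norm_num) (by norm_num), hXm, mc_rot,
      show (1 : ℤ) + 1 = 2 by norm_num, ins_two,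
      mc_e hL _ _ 0 0 (nmod (by norm_num) (by norm_num; omega))]
  have s2 : mc (e 1 (ins δ.rot)).t (e 0 (ins γ).rot).t 1 = mc δ.t γ.t 2 := by
    rw [hY0]
    have a1 : mc (e 1 (ins δ.rot)).t (ins γ.rot).t 1 = mc (e 1 (ins δ.rot)).t (e 1 (ins γ.rot)).t 1 := by
      rw [← T hL _ _ 1 1 (by norm_num) (by norm_num), e_e]
    rw [a1, e1_one hL, mc_rot]
    norm_num
  have s3 : mc (e 0 (e 1 (ins δ.rot))).t (ins γ).rot.t 1 = mc δ.t γ.t 0 := by
    have a1 : e (-1) (ins δ.rot) = (ins δ).rot := by rw [hδ, rm, e_zero_one_ins hL]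
    rw [e_zero_one_ins hL, ← hYm, ← T hL _ _ (-1) 1 (by norm_num) (by norm_num), a1, mc_rot,
      show (1 : ℤ) + 1 = 2 by norm_num, ins_two]
  have s4 : mc (e 1 (ins δ.rot)).t (e 0 (ins γ).rot).t 0 = mc δ.t γ.t 1 := by
    rw [hY0]
    have a1 : mc (e 1 (ins δ.rot)).t (ins γ.rot).t 0 = mc (e 1 (ins δ.rot)).t (e 1 (ins γ.rot)).t 0 := by
      rw [← T hL _ _ 1 0 (by norm_num) (by norm_num), e_e]
    rw [a1, e1_zero hL, mc_rot]
    norm_num
  have s5 : mc (e 1 (ins δ.rot)).t (ins γ).rot.t 0 = mc δ.t (e 0 γ).t 1 := by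
    have a1 : mc (e 1 (ins δ.rot)).t (ins γ).rot.t 0 =
        mc (e 1 (ins δ.rot)).t (e 1 (ins γ).rot).t 0 := by
      rw [← T hL _ _ 1 0 (by norm_num) (by norm_num), e_e]
    have a2 : e 1 (ins γ).rot = e 1 (ins (e 0 γ).rot) := by
      rw [r1, e_two_ins hL, ins_eq_ins23 hL, ← e_two_one hL, hδ, r1]
    rw [a1, a2, e1_zero hL, mc_rot]
    norm_num
  have s6 : mc (e 1 (ins δ.rot)).t (ins γ).rot.t 2 = mc (e 0 δ).t γ.t 1 := by
    rw [← hYm, ← T hL _ _ (-1) 2 (by norm_num) (by norm_num), hXm, mc_rot,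
      show (2 : ℤ) + 1 = 3 by norm_num, ins_three hL]
  unfold FourLeg NL
  rw [s1, s2, s3, s4, s5, s6]
  tauto

theorem four_chi_one : FourLeg (chi 1) (chi 1) := by
  have h1 : e 0 (chi 1) = (chi 1).rot := by
    apply FB.pat_two_ext
    rw [e_t (by norm_num), eFun_of_I (by norm_num), FB.chi_one_rot_t]
    norm_num
  have h2 : mc (chi 1).t (chi 1).t 2 = mc (chi 1).t (chi 1).t 0 := by
    rw [← mc_add (chi 1) (chi 1) 0]
    norm_num
  refine Or.inr ⟨?_, ?_, ?_⟩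
  · unfold NL
    rw [h1, FB.mc_chi_rot]
  · unfold NL
    rw [FB.mc_chi_chi]
    norm_num
  · unfold NL
    rw [h2, FB.mc_chi_chi]
    norm_num

end Pool.Agent.H63.Four
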